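import Pool.Agent.W642.RV.Stms
import Pool.Agent.H832R2.JR.Moment

set_option autoImplicit false
set_option linter.all false

/-! Project RV (helper642): the normalised bracket of the diagram of a Gauss word. -/

namespace Pool.Agent.W337.RV

open Finset LaurentPolynomial
open Pool.Agent.H832R2.JR Pool.Agent.W642.RV
open Pool.Agent.H891R2.Jones (Crossing Diagram)

variable {N : ℕ} (G : GaussWord N) (e w : Fin N → Bool)

theorem len : (diagram G e w).crossings.length = N := by
  simp [diagram]

theorem get_cr (i : Fin (diagram G e w).crossings.length) :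
    (diagram G e w).crossings[i] = crossing e w (Fin.cast (len G e w) i) := by
  have h : (diagram G e w).crossings[(i : ℕ)]'i.2 = crossing e w ((List.finRange N)[(i : ℕ)]'(by
      have h1 := i.2
      have h2 := len G e w
      have h3 : (List.finRange N).length = N := List.length_finRange
      omega)) := List.getElem_map _
  change (diagram G e w).crossings[(i : ℕ)]'i.2 = _
  rw [h, List.getElem_finRange]
  rfl

theorem sign_cr (c : Fin N) : (crossing e w c).sign = sgn (w c) := by
  unfold crossing Crossing.sign sgn
  cases w c <;> simp

theorem writhe_eq : (diagram G e w).writhe = writhe w := by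
  unfold Diagram.writhe writhe
  have h : (diagram G e w).crossings.map Crossing.sign = List.ofFn fun c => sgn (w c) := by
    rw [List.ofFn_eq_map]
    simp only [diagram, List.map_map]
    refine List.map_congr_left fun c _ => ?_
    exact sign_cr e w c
  rw [h, List.sum_ofFn]

/-- the states -/
def st : (Fin (diagram G e w).crossings.length → Bool) ≃ (Fin N → Bool) where
  toFun s := fun c => s (Fin.cast (len G e w).symm c) == w c
  invFun t := fun i => t (Fin.cast (len G e w) i) == w (Fin.cast (len G e w) i)
  left_inv s := by
    funext i
    have h : Fin.cast (len G e w).symm (Fin.cast (len G e w) i) = i := rfl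
    simp only [h]
    cases s i <;> cases w (Fin.cast (len G e w) i) <;> rfl
  right_inv t := by
    funext c
    have h : Fin.cast (len G e w) (Fin.cast (len G e w).symm c) = c := rfl
    simp only [h]
    cases t c <;> cases w c <;> rfl

theorem weight_eq (s : Fin (diagram G e w).crossings.length → Bool) :
    Diagram.weight s = weight w (st G e w s) := by
  unfold Diagram.weight weight
  refine Fintype.sum_equiv (finCongr (len G e w)) _ _ fun i => ?_
  have h : (st G e w s) (finCongr (len G e w) i) = (s i == w (Fin.cast (len G e w) i)) := rfl
  rw [h]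
  have h2 : (finCongr (len G e w)) i = Fin.cast (len G e w) i := rfl
  rw [h2]
  unfold sgn
  cases s i <;> cases w (Fin.cast (len G e w) i) <;> simp

section quot

variable {G e w}

theorem ori {t : Fin N → Bool} {c : Fin N} (h : t c = true) (b : Bool) :
    Quot.mk (Joined G t) ((c, b), false) = Quot.mk (Joined G t) ((c, !b), true) :=
  Quot.sound (show Joined G t _ _ from Or.inr (Or.inl ⟨c, b, h, rfl, rfl⟩))

theorem uno {t : Fin N → Bool} {c : Fin N} (h : t c = false) (b ε : Bool) :
    Quot.mk (Joined G t) ((c, b), ε) = Quot.mk (Joined G t) ((c, !b), ε) := by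
  cases b
  · exact Quot.sound (show Joined G t _ _ from Or.inr (Or.inr ⟨c, ε, h, rfl, rfl⟩))
  · exact (Quot.sound (show Joined G t _ _ from Or.inr (Or.inr ⟨c, ε, h, rfl, rfl⟩))).symm

end quot

theorem dA {P : Type} (D : Diagram P) (s : Fin D.crossings.length → Bool)
    (i : Fin D.crossings.length) (h : s i = true) :
    Quot.mk (D.Joined s) (D.crossings[i]).a = Quot.mk (D.Joined s) (D.crossings[i]).b ∧
    Quot.mk (D.Joined s) (D.crossings[i]).c = Quot.mk (D.Joined s) (D.crossings[i]).d := by
  constructor
  · refine Quot.sound (Or.inr ⟨i, ?_⟩)
    rw [if_pos h]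
    exact Or.inl ⟨rfl, rfl⟩
  · refine Quot.sound (Or.inr ⟨i, ?_⟩)
    rw [if_pos h]
    exact Or.inr ⟨rfl, rfl⟩

theorem dB {P : Type} (D : Diagram P) (s : Fin D.crossings.length → Bool)
    (i : Fin D.crossings.length) (h : s i = false) :
    Quot.mk (D.Joined s) (D.crossings[i]).b = Quot.mk (D.Joined s) (D.crossings[i]).c ∧
    Quot.mk (D.Joined s) (D.crossings[i]).d = Quot.mk (D.Joined s) (D.crossings[i]).a := by
  have h' : ¬ (s i = true) := by rw [h]; simp
  constructor
  · refine Quot.sound (Or.inr ⟨i, ?_⟩)
    rw [if_neg h']
    exact Or.inl ⟨rfl, rfl⟩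
  · refine Quot.sound (Or.inr ⟨i, ?_⟩)
    rw [if_neg h']
    exact Or.inr ⟨rfl, rfl⟩

theorem cr_pos {c : Fin N} (h : w c = true) : crossing e w c =
    ⟨((c, !e c), false), ((c, e c), true), ((c, !e c), true), ((c, e c), false), true, false⟩ := by
  unfold crossing; rw [if_pos h]

theorem cr_neg {c : Fin N} (h : w c = false) : crossing e w c =
    ⟨((c, e c), false), ((c, !e c), false), ((c, e c), true), ((c, !e c), true), true, true⟩ := by
  unfold crossing; rw [if_neg (by rw [h]; simp)]

theorem loops_eq' (s : Fin (diagram G e w).crossings.length → Bool) :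
    (diagram G e w).loops s = loops G (st G e w s) := by
  unfold Diagram.loops loops
  refine card_quot_congr _ _ ?_ ?_
  · rintro p q (h | ⟨i, h⟩)
    · simp only [diagram, List.mem_map, List.mem_finRange, true_and] at h
      obtain ⟨k, hk⟩ := h
      obtain ⟨rfl, rfl⟩ := Prod.mk.inj hk
      exact Quot.sound (Or.inl ⟨G.symm k, rfl, rfl⟩)
    · rw [get_cr] at h
      set c := Fin.cast (len G e w) i with hc
      have ht : (st G e w s) c = (s i == w c) := rfl
      cases hs : s i <;> cases hw : w c
      · rw [hs, hw] at ht
        have ht' : (st G e w s) c = true := by rw [ht]; rfl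
        rw [cr_neg e w hw, hs] at h
        simp only [Bool.false_eq_true, if_false] at h
        rcases h with ⟨rfl, rfl⟩ | ⟨rfl, rfl⟩
        · have := ori (G := G) ht' (!e c)
          rwa [Bool.not_not] at this
        · exact (ori (G := G) ht' (e c)).symm
      · rw [hs, hw] at ht
        have ht' : (st G e w s) c = false := by rw [ht]; rfl
        rw [cr_pos e w hw, hs] at h
        simp only [Bool.false_eq_true, if_false] at h
        rcases h with ⟨rfl, rfl⟩ | ⟨rfl, rfl⟩
        · exact uno (G := G) ht' (e c) true
        · exact uno (G := G) ht' (e c) false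
      · rw [hs, hw] at ht
        have ht' : (st G e w s) c = false := by rw [ht]; rfl
        rw [cr_neg e w hw, hs] at h
        simp only [if_true] at h
        rcases h with ⟨rfl, rfl⟩ | ⟨rfl, rfl⟩
        · exact uno (G := G) ht' (e c) false
        · exact uno (G := G) ht' (e c) true
      · rw [hs, hw] at ht
        have ht' : (st G e w s) c = true := by rw [ht]; rfl
        rw [cr_pos e w hw, hs] at h
        simp only [if_true] at h
        rcases h with ⟨rfl, rfl⟩ | ⟨rfl, rfl⟩
        · have := ori (G := G) ht' (!e c)
          rwa [Bool.not_not] at this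
        · exact (ori (G := G) ht' (e c)).symm
  · have key : ∀ c : Fin N, ∃ i, (diagram G e w).crossings[i] = crossing e w c ∧
        (st G e w s) c = (s i == w c) := by
      intro c
      refine ⟨Fin.cast (len G e w).symm c, ?_, rfl⟩
      rw [get_cr]
      rfl
    rintro x y (⟨p, rfl, rfl⟩ | ⟨c, b, ht, rfl, rfl⟩ | ⟨c, ε, ht, rfl, rfl⟩)
    · refine Quot.sound (Or.inl ?_)
      simp only [diagram, List.mem_map, List.mem_finRange, true_and]
      exact ⟨G p, by simp⟩
    · obtain ⟨i, h1, h2⟩ := key c
      rw [ht] at h2
      cases hs : s i <;> cases hw : w c <;> rw [hs, hw] at h2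
      · obtain ⟨a1, a2⟩ := dB (diagram G e w) s i hs
        rw [h1, cr_neg e w hw] at a1 a2
        simp only at a1 a2
        by_cases hb : b = e c
        · subst hb; exact a2.symm
        · have hb' : b = !e c := by
            revert hb
            cases b <;> cases e c <;> simp
          subst hb'
          rw [Bool.not_not]
          exact a1
      · exact absurd h2 (by decide)
      · exact absurd h2 (by decide)
      · obtain ⟨a1, a2⟩ := dA (diagram G e w) s i hs
        rw [h1, cr_pos e w hw] at a1 a2
        simp only at a1 a2
        by_cases hb : b = e c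
        · subst hb; exact a2.symm
        · have hb' : b = !e c := by
            revert hb
            cases b <;> cases e c <;> simp
          subst hb'
          rw [Bool.not_not]
          exact a1
    · obtain ⟨i, h1, h2⟩ := key c
      rw [ht] at h2
      have fin : ∀ z z' : Bool, Quot.mk ((diagram G e w).Joined s) ((c, e c), ε) =
          Quot.mk ((diagram G e w).Joined s) ((c, !e c), ε) →
          Quot.mk ((diagram G e w).Joined s) ((c, false), ε) =
          Quot.mk ((diagram G e w).Joined s) ((c, true), ε) := by
        intro _ _ h
        cases h3 : e c <;> rw [h3] at h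
        · exact h
        · exact h.symm
      refine fin true true ?_
      cases hs : s i <;> cases hw : w c <;> rw [hs, hw] at h2
      · exact absurd h2 (by decide)
      · obtain ⟨a1, a2⟩ := dB (diagram G e w) s i hs
        rw [h1, cr_pos e w hw] at a1 a2
        simp only at a1 a2
        cases ε
        · exact a2
        · exact a1
      · obtain ⟨a1, a2⟩ := dA (diagram G e w) s i hs
        rw [h1, cr_neg e w hw] at a1 a2
        simp only at a1 a2
        cases ε
        · exact a1
        · exact a2
      · exact absurd h2 (by decide)

theorem fpoly : S_fpoly := by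
  intro N G e w
  have hb : (diagram G e w).bracket = bracket G w := by
    unfold Diagram.bracket bracket
    refine Fintype.sum_equiv (st G e w) _ _ fun s => ?_
    rw [weight_eq, loops_eq']
  unfold Diagram.fPoly fPoly
  rw [writhe_eq, hb]

end Pool.Agent.W337.RV
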